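import Pool.Agent.H7.KSAT.WalkFin

/-!
# Fullness at all scales with a total deficit

The saturation theorem for the walk is applied in the windows `r = 0, 1, …, R - 1` with the same
velocity block `V` and with nested labels `b r`. The informations of the positions on the velocity
block add up to at most twice the entropy of the block, so the sum of the deficits of saturation is
bounded independently of the number of windows (up to `O(1)` bits per window).
-/

set_option autoImplicit false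

namespace Pool.KUN

open Finset Real
open Pool.Agent.H49.Ent Pool.Agent.H32.Dense Pool.STK Pool.KSAT

open Classical in
/-- The hypotheses of the saturation theorem in one window: `lam` is the line with the window and
the labels, `b` the label, `T` the time in the window, `x` the position and `V` the velocity. -/
structure Win {Ω Λ β : Type} [Fintype Ω] {m : ℕ} (p : Ω → ℝ) (lam : Ω → Λ) (b : Ω → β)
    (T : Ω → ℤ) (x V : Ω → Fin m → ℤ) (K a k : ℕ) (ρ : ℝ) : Prop where
  bd : ∀ ω i, |(V ω i : ℝ)| ≤ 3 * 2 ^ K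
  mv : ∀ ω ω', 0 < p ω → 0 < p ω' → lam ω = lam ω' → |((T ω' : ℝ) - T ω)| ≤ 2 ^ K ∧
    ∀ i, |2 ^ K * ((x ω' i : ℝ) - x ω i) - ((T ω' : ℝ) - T ω) * V ω i| ≤ 4 * 2 ^ K
  lb : ∀ ω ω', 0 < p ω → 0 < p ω' → lam ω = lam ω' → b ω = b ω'
  nc : ∀ ω, 0 < p ω → ∀ B : Fin k → Fin m → ℝ,
    (∑ ω', if ∃ c : Fin k → ℝ, ∀ j, |(V ω' j : ℝ) - ∑ i, c i * B i j| ≤ 2 ^ a
      then cond p b (b ω) ω' else 0) ≤ ρ

/-- Fullness with a total deficit. -/
def FULStmt : Prop :=
  ∀ m n k : ℕ, k < n → ∃ C : ℝ, 0 ≤ C ∧ ∀ (Ω : Type) (Λ β : ℕ → Type) [Fintype Ω] (p : Ω → ℝ)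
    (lam : ∀ r, Ω → Λ r) (b : ∀ r, Ω → β r) (T : ℕ → Ω → ℤ) (x : ℕ → Ω → Fin m → ℤ)
    (V : Ω → Fin m → ℤ) (K a R : ℕ) (ρ : ℝ), IsLaw p → 0 < ρ →
    (n : ℝ) ^ k * ρ ^ (n - k) < 1 →
    (∀ r < R, Win p (lam r) (b r) (T r) (x r) V K a k ρ) →
    (∀ r, Det p (b (r + 1)) (b r)) → (∀ r, Det p (b (r + 2)) (x r)) →
    ∑ r ∈ Finset.range R, ((k + 1) * (a * Real.log 2) -
        CH p (x r) (fun ω => ((fun j => x r ω j / 2 ^ a), b r ω))) ≤
      (1 + (k + 1) * (a * Real.log 2) / Real.log (1 / ((n : ℝ) ^ k * ρ ^ (n - k)))) * n *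
        (2 * CH p V (b 0)) +
      n * ∑ r ∈ Finset.range R, (K * Real.log 2 - CH p (T r) (lam r)) +
      R * ((k + 1) * (a * Real.log 2) * Real.log 2 /
        Real.log (1 / ((n : ℝ) ^ k * ρ ^ (n - k))) + C)

lemma sum_two (h : ℕ → ℝ) (R : ℕ) :
    ∑ r ∈ Finset.range R, (h r - h (r + 2)) = h 0 + h 1 - h R - h (R + 1) := by
  induction R with
  | zero => simp
  | succ R ih =>
    rw [Finset.sum_range_succ, ih]
    ring

theorem ful_thm (hW : WalkSaturationStmt) : FULStmt := by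
  intro m n k hkn
  obtain ⟨C, hC, hw⟩ := hW m n k hkn
  refine ⟨C, hC, ?_⟩
  intro Ω Λ β _ p lam b T x V K a R ρ hp hρ hlt hwin hb hx
  set Lc : ℝ := Real.log (1 / ((n : ℝ) ^ k * ρ ^ (n - k))) with hLc
  have hn : (0 : ℝ) < n := by
    have : 0 < n := by omega
    exact_mod_cast this
  have hpos : 0 < (n : ℝ) ^ k * ρ ^ (n - k) := by positivity
  have hL : 0 < Lc := by
    refine Real.log_pos ?_
    rw [lt_div_iff₀ hpos]
    linarith
  set I : ℕ → ℝ := fun r => CH p V (b r) - CH p V (fun ω => (b r ω, x r ω)) with hI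
  set A : ℝ := (k + 1) * (a * Real.log 2) with hA
  have hA0 : 0 ≤ A := by
    have : 0 ≤ Real.log 2 := Real.log_nonneg (by norm_num)
    positivity
  -- one window
  have h1 : ∀ r ∈ Finset.range R, A -
      CH p (x r) (fun ω => ((fun j => x r ω j / 2 ^ a), b r ω)) ≤
      (1 + A / Lc) * n * I r + n * (K * Real.log 2 - CH p (T r) (lam r)) +
        (A * Real.log 2 / Lc + C) := by
    intro r hr
    have hwr := hwin r (Finset.mem_range.mp hr)
    have h := hw Ω (Λ r) (β r) p (lam r) (b r) (T r) (x r) V K a ρ hp hwr.bd hwr.mv hwr.lb hρ hlt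
      hwr.nc
    have e : A * (1 - (n * I r + Real.log 2) / Lc) =
        A - (A / Lc * n * I r + A * Real.log 2 / Lc) := by
      field_simp
    simp only [hI] at e ⊢
    rw [← hLc, ← hA, e] at h
    linarith
  -- the informations
  have hdet2 : ∀ r, Det p (b (r + 2)) (b r) := fun r ω ω' h₁ h₂ e =>
    hb r ω ω' h₁ h₂ (hb (r + 1) ω ω' h₁ h₂ e)
  have h2 : ∀ r, I r ≤ CH p V (b r) - CH p V (b (r + 2)) := by
    intro r
    have := CH_mono_cond hp.nonneg (X := V) (W' := b (r + 2)) (W := fun ω => (b r ω, x r ω))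
      (fun ω ω' h₁ h₂ e => Prod.ext (hdet2 r ω ω' h₁ h₂ e) (hx r ω ω' h₁ h₂ e))
    simp only [hI]
    linarith
  have h3 : ∑ r ∈ Finset.range R, I r ≤ 2 * CH p V (b 0) := by
    refine (Finset.sum_le_sum fun r _ => h2 r).trans ?_
    rw [sum_two (fun r => CH p V (b r))]
    have e1 := CH_mono_cond hp.nonneg (X := V) (W' := b 1) (W := b 0) (hb 0)
    have e2 := CH_nonneg hp.nonneg V (b R)
    have e3 := CH_nonneg hp.nonneg V (b (R + 1))
    linarith
  refine (Finset.sum_le_sum h1).trans ?_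
  rw [Finset.sum_add_distrib, Finset.sum_add_distrib, ← Finset.mul_sum, ← Finset.mul_sum,
    Finset.sum_const, Finset.card_range, nsmul_eq_mul]
  have h4 : (1 + A / Lc) * n * ∑ r ∈ Finset.range R, I r ≤
      (1 + A / Lc) * n * (2 * CH p V (b 0)) :=
    mul_le_mul_of_nonneg_left h3 (by positivity)
  linarith

end Pool.KUN
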